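import Mathlib
import Pool.Agent.V11332.BKR
import Pool.Agent.V11332.BKRPower

namespace Pool.Agent.Results.MP_2d934b_pr.AllPowersDistinct

open Pool.Agent.V11332.BKR Finset

open scoped Classical in
section

variable {r : ℕ}

/-- Triples of leaf numbers. -/
abbrev Tr (r : ℕ) : Type := Fin r × Fin r × Fin r

/-- The two coordinates of a block. -/
def blk (z : Tr r × Fin 2 → Bool) (t : Tr r) : Fin 2 → Bool := fun b => z (t, b)

/-- The block `t` is active for the tree `T₀`. -/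
def act (T₀ : Paren) (t : Tr r) : Prop :=
  (t.1 : ℕ) ≠ t.2.1 ∧ (t.1 : ℕ) ≠ t.2.2 ∧ (t.2.1 : ℕ) ≠ t.2.2 ∧ tog T₀ 0 t.1 t.2.1 t.2.2

noncomputable def H (T₀ : Paren) (t : Tr r) (m : ℕ) : Set (Fin 2 → Bool) :=
  if act T₀ t then tri gA gB gC t.1 t.2.1 t.2.2 m else Set.univ

def G (k : {T : Paren // T.leaves = r}) (m : ℕ) : Set (Tr r × Fin 2 → Bool) :=
  {z | ∀ t, blk z t ∈ H k.1 t m}

def bigA (r : ℕ) : Set (Fin r ⊕ (Tr r × Fin 2) → Option {T : Paren // T.leaves = r} × Bool) :=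
  {x | ∃ m : ℕ, x ∈ tagged r G m}

/-! ### Lower bound -/

lemma block_box (A B : Tr r → Set (Fin 2 → Bool)) (z : Tr r × Fin 2 → Bool)
    (h : ∀ t, blk z t ∈ box (A t) (B t)) :
    z ∈ box {z | ∀ t, blk z t ∈ A t} {z | ∀ t, blk z t ∈ B t} := by
  choose K L h0 h1 h2 using h
  refine ⟨{g | g.2 ∈ K g.1}, {g | g.2 ∈ L g.1}, ?_, ?_, ?_⟩
  · rw [Set.disjoint_left]
    intro g h3 h4
    exact Set.disjoint_left.1 (h0 g.1) h3 h4
  · intro y hy t
    exact h1 t fun b hb => hy (t, b) hb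
  · intro y hy t
    exact h2 t fun b hb => hy (t, b) hb

lemma block_prod (Q : Tr r → ℕ → Set (Fin 2 → Bool)) :
    ∀ (T : Paren) (a : ℕ) (z : Tr r × Fin 2 → Bool), (∀ t, blk z t ∈ prod (Q t) T a) →
      z ∈ prod (fun m => {z | ∀ t, blk z t ∈ Q t m}) T a
  | .leaf, _, _, h => h
  | .node l r', a, z, h => by
    simp only [prod] at h ⊢
    refine box_mono ?_ ?_ (block_box _ _ z h)
    · intro y hy
      exact block_prod Q l a y hy
    · intro y hy
      exact block_prod Q r' _ y hy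

/-- The distinguished point attached to the tree `k`. -/
def pt (k : {T : Paren // T.leaves = r}) (R : Finset ℕ) (z : Tr r × Fin 2 → Bool) :
    Fin r ⊕ (Tr r × Fin 2) → Option {T : Paren // T.leaves = r} × Bool :=
  Sum.elim (fun m => (if (m : ℕ) ∈ R then some k else none, false)) (fun g => (none, z g))

lemma star_mem (k : {T : Paren // T.leaves = r}) :
    pt k (range r) (fun _ => false) ∈ val (bigA r) k.1 := by
  have hsub : ∀ i, tagged r (G (r := r)) i ⊆ bigA r := fun i x hx => Set.mem_ofPred_eq ▸ ⟨i, hx⟩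
  refine prod_subset_val hsub k.1 0 ?_
  rw [tagged_mem (r := r) G k k.1 0 (by have := k.2; omega) _ (fun i _ _ => by
    simp [pt])]
  refine block_prod (fun t m => H k.1 t m) k.1 0 _ fun t => ?_
  by_cases hact : act k.1 t
  · have hH : H k.1 t = tri gA gB gC t.1 t.2.1 t.2.2 := by
      funext m; simp only [H, if_pos hact]
    rw [hH]
    obtain ⟨h1, h2, h3, h4⟩ := hact
    have hk := k.2
    rw [prod_tog (t.1 : ℕ) t.2.1 t.2.2 h1 h2 h3 k.1 0 (Nat.zero_le _) (Nat.zero_le _)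
      (Nat.zero_le _) (by have := t.1.2; omega) (by have := t.2.1.2; omega)
      (by have := t.2.2.2; omega) h4]
    exact g0_mem
  · have : prod (H k.1 t) k.1 0 = Set.univ := prod_univ k.1 0 (fun m _ _ => by
      simp only [H, if_neg hact])
    rw [this]
    trivial

/-! ### Upper bound -/

/-- The active tags. -/
noncomputable def activeTags {Γ Κ V : Type*} (x : Fin r ⊕ Γ → Option Κ × V) : Finset (Fin r) :=
  univ.filter fun m => (x (Sum.inl m)).1 ≠ none

/-- Switch off the tags outside `K`. -/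
noncomputable def off {Γ Κ V : Type*} (x : Fin r ⊕ Γ → Option Κ × V) (K : Set (Fin r ⊕ Γ)) :
    Fin r ⊕ Γ → Option Κ × V :=
  fun c => if c ∈ K then x c else match c with
    | Sum.inl _ => (none, (x c).2)
    | Sum.inr _ => x c

lemma off_mem_cyl {Γ Κ V : Type*} (x : Fin r ⊕ Γ → Option Κ × V) (K : Set (Fin r ⊕ Γ)) :
    off x K ∈ cyl x K := by
  intro c hc
  simp only [off, if_pos hc]

lemma active_off {Γ Κ V : Type*} (x : Fin r ⊕ Γ → Option Κ × V) (K : Set (Fin r ⊕ Γ)) :
    activeTags (off x K) = (activeTags x).filter fun m => Sum.inl m ∈ K := by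
  ext m
  simp only [activeTags, mem_filter, mem_univ, true_and, off]
  by_cases h : (Sum.inl m : Fin r ⊕ Γ) ∈ K
  · simp [h]
  · simp [h]

lemma leaves_le_active : ∀ (T : Paren) (x), x ∈ val (bigA r) T →
    T.leaves ≤ (activeTags x).card
  | .leaf, x, hx => by
    obtain ⟨m, h, k, h1, _⟩ := hx
    simp only [Paren.leaves]
    rw [Nat.succ_le_iff, Finset.card_pos]
    exact ⟨⟨m, h⟩, by simp [activeTags, h1]⟩
  | .node l r', x, hx => by
    obtain ⟨K, L, h0, h1, h2⟩ := hx
    have i1 := leaves_le_active l _ (h1 (off_mem_cyl x K))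
    have i2 := leaves_le_active r' _ (h2 (off_mem_cyl x L))
    rw [active_off] at i1 i2
    simp only [Paren.leaves]
    have h3 : Disjoint ((activeTags x).filter fun m => (Sum.inl m : Fin r ⊕ _) ∈ K)
        ((activeTags x).filter fun m => (Sum.inl m : Fin r ⊕ _) ∈ L) := by
      rw [Finset.disjoint_filter]
      intro m _ h4 h5
      exact Set.disjoint_left.1 h0 h4 h5
    calc l.leaves + r'.leaves ≤ _ + _ := add_le_add i1 i2
      _ = _ := (Finset.card_union_of_disjoint h3).symm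
      _ ≤ (activeTags x).card := Finset.card_le_card
          (Finset.union_subset (Finset.filter_subset _ _) (Finset.filter_subset _ _))

/-- The part of a block condition coming from the leaves in `R`. -/
noncomputable def part (R : Finset ℕ) (m : ℕ) (Q : Set (Fin 2 → Bool)) : Set (Fin 2 → Bool) :=
  if m ∈ R then Q else Set.univ

noncomputable def Pi (R : Finset ℕ) (t : Tr r) : Set (Fin 2 → Bool) :=
  box (box (part R t.1 gA) (part R t.2.1 gB)) (part R t.2.2 gC)

lemma box_Pi_subset (R R₁ R₂ : Finset ℕ) (hR : R = R₁ ∪ R₂) (hd : Disjoint R₁ R₂) (t : Tr r)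
    (ht : ¬ ((t.1 : ℕ) ∈ R ∧ (t.2.1 : ℕ) ∈ R ∧ (t.2.2 : ℕ) ∈ R)) :
    box (Pi R₁ t) (Pi R₂ t) ⊆ Pi R t := by
  have d1 : ∀ m, m ∈ R₁ → m ∉ R₂ := fun m h h' => Finset.disjoint_left.1 hd h h'
  subst hR
  simp only [mem_union] at ht
  unfold Pi part
  simp only [mem_union]
  have e1 := d1 t.1
  have e2 := d1 t.2.1
  have e3 := d1 t.2.2
  by_cases a1 : (t.1 : ℕ) ∈ R₁ <;> by_cases a2 : (t.1 : ℕ) ∈ R₂ <;>
  by_cases b1 : (t.2.1 : ℕ) ∈ R₁ <;> by_cases b2 : (t.2.1 : ℕ) ∈ R₂ <;>
  by_cases c1 : (t.2.2 : ℕ) ∈ R₁ <;> by_cases c2 : (t.2.2 : ℕ) ∈ R₂ <;>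
  simp_all [box_univ, univ_box, box_comm]

lemma restr_singleton : ∀ (T : Paren) (a m : ℕ), a ≤ m → m < a + T.leaves →
    restr T a {m} = some .leaf
  | .leaf, a, m, h1, h2 => by
    have : a = m := by simp only [Paren.leaves] at h2; omega
    simp [restr, this]
  | .node l r, a, m, h1, h2 => by
    simp only [Paren.leaves] at h2
    simp only [restr]
    rcases lt_or_ge m (a + l.leaves) with h | h
    · rw [restr_singleton l a m h1 h, restr_none r _ _ (fun i _ _ h3 => by
        rw [mem_singleton] at h3; omega)]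
      rfl
    · rw [restr_singleton r _ m h (by omega), restr_none l _ _ (fun i _ _ h3 => by
        rw [mem_singleton] at h3; omega)]
      rfl

lemma upper (k : {T : Paren // T.leaves = r}) : ∀ (T : Paren) (R : Finset ℕ)
    (z : Tr r × Fin 2 → Bool), R ⊆ range r → R.card = T.leaves → pt k R z ∈ val (bigA r) T →
    (∀ t : Tr r, act k.1 t → ¬ ((t.1 : ℕ) ∈ R ∧ (t.2.1 : ℕ) ∈ R ∧ (t.2.2 : ℕ) ∈ R) →
      blk z t ∈ Pi R t) ∧
    ((∀ t, blk z t = g0) → ∃ U, restr k.1 0 R = some U ∧ Eqv T U)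
  | .leaf, R, z, hRr, hcard, hx => by
    obtain ⟨m, h, k', h1, h2⟩ := hx
    have hm : m ∈ R ∧ k = k' := by
      by_cases hmR : m ∈ R
      · refine ⟨hmR, ?_⟩
        simpa [pt, hmR] using h1
      · simp [pt, hmR] at h1
    obtain ⟨hmR, rfl⟩ := hm
    have hR : R = {m} := by
      obtain ⟨b, hb⟩ := Finset.card_eq_one.1 hcard
      rw [hb] at hmR ⊢
      rw [mem_singleton] at hmR
      rw [hmR]
    have h3 : ∀ t, blk z t ∈ H k.1 t m := h2
    refine ⟨?_, ?_⟩
    · intro t hact _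
      have h4 := h3 t
      simp only [H, if_pos hact, tri] at h4
      obtain ⟨n1, n2, n3, _⟩ := hact
      unfold Pi part
      rw [hR]
      simp only [mem_singleton]
      by_cases e1 : (t.1 : ℕ) = m
      · have e2 : (t.2.1 : ℕ) ≠ m := fun h => n1 (e1.trans h.symm)
        have e3 : (t.2.2 : ℕ) ≠ m := fun h => n2 (e1.trans h.symm)
        rw [if_pos e1.symm] at h4
        rw [if_pos e1, if_neg e2, if_neg e3, box_univ, box_univ]
        exact h4
      · by_cases e2 : (t.2.1 : ℕ) = m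
        · have e3 : (t.2.2 : ℕ) ≠ m := fun h => n3 (e2.trans h.symm)
          rw [if_neg (fun h => e1 h.symm), if_pos e2.symm] at h4
          rw [if_neg e1, if_pos e2, if_neg e3, univ_box, box_univ]
          exact h4
        · by_cases e3 : (t.2.2 : ℕ) = m
          · rw [if_neg (fun h => e1 h.symm), if_neg (fun h => e2 h.symm), if_pos e3.symm] at h4
            rw [if_neg e1, if_neg e2, if_pos e3, univ_box, univ_box]
            exact h4
          · rw [if_neg e1, if_neg e2, if_neg e3, univ_box, univ_box]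
            trivial
    · intro _
      refine ⟨.leaf, ?_, .leaf⟩
      rw [hR]
      have hk := k.2
      exact restr_singleton _ _ _ (Nat.zero_le _) (by omega)
  | .node l r', R, z, hRr, hcard, hx => by
    obtain ⟨K, L, h0, h1, h2⟩ := hx
    simp only [Paren.leaves] at hcard
    -- the tags used by each side
    set R₁ : Finset ℕ := R.filter fun m => ∃ h : m < r, (Sum.inl ⟨m, h⟩ : Fin r ⊕ (Tr r × Fin 2)) ∈ K
      with hR₁
    set R₂ : Finset ℕ := R.filter fun m => ∃ h : m < r, (Sum.inl ⟨m, h⟩ : Fin r ⊕ (Tr r × Fin 2)) ∈ L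
      with hR₂
    have hd : Disjoint R₁ R₂ := by
      rw [hR₁, hR₂, Finset.disjoint_filter]
      rintro m _ ⟨h3, h4⟩ ⟨_, h5⟩
      exact Set.disjoint_left.1 h0 h4 h5
    have key : ∀ (K : Set (Fin r ⊕ (Tr r × Fin 2))) (R' : Finset ℕ),
        R' = R.filter (fun m => ∃ h : m < r, (Sum.inl ⟨m, h⟩ : Fin r ⊕ (Tr r × Fin 2)) ∈ K) →
        ∀ z' : Tr r × Fin 2 → Bool, (∀ g, Sum.inr g ∈ K → z' g = z g) →
          pt k R' z' ∈ cyl (pt k R z) K := by
      rintro K R' hR' z' hz' (m | g) hc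
      · simp only [pt, Sum.elim_inl]
        by_cases hm : (m : ℕ) ∈ R
        · rw [if_pos hm, if_pos]
          rw [hR', mem_filter]
          exact ⟨hm, m.2, hc⟩
        · rw [if_neg hm, if_neg]
          rw [hR', mem_filter]
          exact fun h => hm h.1
      · simp only [pt, Sum.elim_inr]
        rw [hz' g hc]
    have hact : ∀ (R' : Finset ℕ) (z' : Tr r × Fin 2 → Bool), R' ⊆ range r →
        (activeTags (pt k R' z')).card = R'.card := by
      intro R' z' hR'
      refine Finset.card_bij (fun m _ => (m : ℕ)) ?_ ?_ ?_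
      · intro m hm
        simp only [activeTags, mem_filter, mem_univ, true_and, pt, Sum.elim_inl] at hm
        by_contra hcon
        rw [if_neg hcon] at hm
        exact hm rfl
      · intro a _ b _ h
        exact Fin.ext h
      · intro m hm
        refine ⟨⟨m, Finset.mem_range.1 (hR' hm)⟩, ?_, rfl⟩
        simp only [activeTags, mem_filter, mem_univ, true_and, pt, Sum.elim_inl]
        rw [if_pos hm]
        simp
    have hs₁ : R₁ ⊆ range r := (Finset.filter_subset _ _).trans hRr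
    have hs₂ : R₂ ⊆ range r := (Finset.filter_subset _ _).trans hRr
    have c₁ : l.leaves ≤ R₁.card := by
      rw [← hact R₁ z hs₁]
      exact leaves_le_active l _ (h1 (key K R₁ hR₁ z (fun _ _ => rfl)))
    have c₂ : r'.leaves ≤ R₂.card := by
      rw [← hact R₂ z hs₂]
      exact leaves_le_active r' _ (h2 (key L R₂ hR₂ z (fun _ _ => rfl)))
    have hsub : R₁ ∪ R₂ ⊆ R := Finset.union_subset (Finset.filter_subset _ _)
      (Finset.filter_subset _ _)
    have hcu := Finset.card_union_of_disjoint hd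
    have hle := Finset.card_le_card hsub
    have hR : R = R₁ ∪ R₂ := (Finset.eq_of_subset_of_card_le hsub (by omega)).symm
    have e₁ : R₁.card = l.leaves := by omega
    have e₂ : R₂.card = r'.leaves := by omega
    have hl := l.leaves_pos
    have hr' := r'.leaves_pos
    -- block conditions as cylinder inclusions
    have cylIncl : ∀ (K : Set (Fin r ⊕ (Tr r × Fin 2))) (R' : Finset ℕ) (T' : Paren),
        R' = R.filter (fun m => ∃ h : m < r, (Sum.inl ⟨m, h⟩ : Fin r ⊕ (Tr r × Fin 2)) ∈ K) →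
        cyl (pt k R z) K ⊆ val (bigA r) T' →
        (∀ z' : Tr r × Fin 2 → Bool, pt k R' z' ∈ val (bigA r) T' →
          ∀ t : Tr r, act k.1 t → ¬ ((t.1 : ℕ) ∈ R' ∧ (t.2.1 : ℕ) ∈ R' ∧ (t.2.2 : ℕ) ∈ R') →
            blk z' t ∈ Pi R' t) →
        ∀ t : Tr r, act k.1 t → ¬ ((t.1 : ℕ) ∈ R' ∧ (t.2.1 : ℕ) ∈ R' ∧ (t.2.2 : ℕ) ∈ R') →
          cyl (blk z t) {b | Sum.inr (t, b) ∈ K} ⊆ Pi R' t := by
      intro K R' T' hR' hc hih t hat hnt w hw
      set z' : Tr r × Fin 2 → Bool := fun g => if g.1 = t then w g.2 else z g with hz'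
      have h3 : pt k R' z' ∈ cyl (pt k R z) K := by
        refine key K R' hR' z' fun g hg => ?_
        rw [hz']
        by_cases hgt : g.1 = t
        · simp only [if_pos hgt]
          have : g = (t, g.2) := by rw [← hgt]
          rw [this] at hg
          rw [hw g.2 hg]
          rw [← hgt]
          rfl
        · simp only [if_neg hgt]
      have h4 := hih z' (hc h3) t hat hnt
      have h5 : blk z' t = w := by
        funext b
        simp [blk, hz']
      rw [h5] at h4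
      exact h4
    have ih₁ := fun z' h => (upper k l R₁ z' hs₁ e₁ h)
    have ih₂ := fun z' h => (upper k r' R₂ z' hs₂ e₂ h)
    have i₁ := cylIncl K R₁ l hR₁ h1 (fun z' h => (ih₁ z' h).1)
    have i₂ := cylIncl L R₂ r' hR₂ h2 (fun z' h => (ih₂ z' h).1)
    have hdisj : ∀ t : Tr r, Disjoint {b : Fin 2 | (Sum.inr (t, b) : Fin r ⊕ (Tr r × Fin 2)) ∈ K}
        {b | Sum.inr (t, b) ∈ L} := by
      intro t
      rw [Set.disjoint_left]
      intro b h3 h4
      exact Set.disjoint_left.1 h0 h3 h4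
    have hbox : ∀ t : Tr r, act k.1 t →
        ¬ ((t.1 : ℕ) ∈ R₁ ∧ (t.2.1 : ℕ) ∈ R₁ ∧ (t.2.2 : ℕ) ∈ R₁) →
        ¬ ((t.1 : ℕ) ∈ R₂ ∧ (t.2.1 : ℕ) ∈ R₂ ∧ (t.2.2 : ℕ) ∈ R₂) →
        blk z t ∈ box (Pi R₁ t) (Pi R₂ t) := fun t hat hn1 hn2 =>
      ⟨_, _, hdisj t, i₁ t hat hn1, i₂ t hat hn2⟩
    refine ⟨?_, ?_⟩
    · intro t hat hnt
      refine box_Pi_subset R R₁ R₂ hR hd t hnt (hbox t hat ?_ ?_)
      · rintro ⟨h3, h4, h5⟩
        exact hnt ⟨hsub (mem_union_left _ h3), hsub (mem_union_left _ h4),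
          hsub (mem_union_left _ h5)⟩
      · rintro ⟨h3, h4, h5⟩
        exact hnt ⟨hsub (mem_union_right _ h3), hsub (mem_union_right _ h4),
          hsub (mem_union_right _ h5)⟩
    · intro hz
      obtain ⟨U₁, hU₁, hE₁⟩ := (ih₁ z (h1 (key K R₁ hR₁ z (fun _ _ => rfl)))).2 hz
      obtain ⟨U₂, hU₂, hE₂⟩ := (ih₂ z (h2 (key L R₂ hR₂ z (fun _ _ => rfl)))).2 hz
      have hn : ∀ (Q₁ Q₂ : Finset ℕ), Disjoint Q₁ Q₂ → Q₁ ⊆ range r → Q₂ ⊆ range r →
          (∀ t : Tr r, act k.1 t →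
            ¬ ((t.1 : ℕ) ∈ Q₁ ∧ (t.2.1 : ℕ) ∈ Q₁ ∧ (t.2.2 : ℕ) ∈ Q₁) →
            ¬ ((t.1 : ℕ) ∈ Q₂ ∧ (t.2.1 : ℕ) ∈ Q₂ ∧ (t.2.2 : ℕ) ∈ Q₂) →
            blk z t ∈ box (Pi Q₁ t) (Pi Q₂ t)) →
          ∀ p ∈ Q₁, ∀ s ∈ Q₁, ∀ q ∈ Q₂, p ≠ s → ¬ tog k.1 0 p q s := by
        intro Q₁ Q₂ hdq hq₁ hq₂ hb p hp s hs q hq hps ht
        have hpr := Finset.mem_range.1 (hq₁ hp)
        have hsr := Finset.mem_range.1 (hq₁ hs)
        have hqr := Finset.mem_range.1 (hq₂ hq)
        have hq1 : q ∉ Q₁ := fun h => Finset.disjoint_left.1 hdq h hq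
        have hp2 : p ∉ Q₂ := fun h => Finset.disjoint_left.1 hdq hp h
        have hs2 : s ∉ Q₂ := fun h => Finset.disjoint_left.1 hdq hs h
        have hpq : p ≠ q := fun h => hq1 (h ▸ hp)
        have hqs : q ≠ s := fun h => hq1 (h ▸ hs)
        have h3 := hb (⟨p, hpr⟩, ⟨q, hqr⟩, ⟨s, hsr⟩) ⟨hpq, hps, hqs, ht⟩
          (fun h => hq1 h.2.1) (fun h => hp2 h.1)
        rw [hz] at h3
        simp only [Pi, part, if_pos hp, if_pos hs, if_neg hq1, if_neg hp2, if_neg hs2,
          if_pos hq, box_univ, univ_box] at h3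
        exact g0_not_mem_ACB h3
      have hk := k.2
      obtain ⟨U, hU, hall⟩ := split_lemma k.1 0 R R₁ R₂ hR hd
        (fun i hi => ⟨Nat.zero_le _, by have := Finset.mem_range.1 (hRr hi); omega⟩)
        (Finset.card_pos.1 (by omega)) (Finset.card_pos.1 (by omega))
        (hn R₁ R₂ hd hs₁ hs₂ hbox)
        (hn R₂ R₁ hd.symm hs₂ hs₁ (fun t h3 h4 h5 => by
          rw [box_comm]; exact hbox t h3 h5 h4))
      exact ⟨U, hU, hall _ _ _ _ hU₁ hU₂ hE₁ hE₂⟩

lemma finite_leaves_le : ∀ n : ℕ, {T : Paren | T.leaves ≤ n}.Finite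
  | 0 => by
    refine Set.Finite.subset Set.finite_empty ?_
    intro T hT
    have := T.leaves_pos
    simp only [Set.mem_ofPred_eq] at hT
    omega
  | n + 1 => by
    have ih := finite_leaves_le n
    refine ((Set.finite_singleton Paren.leaf).union (ih.image2 Paren.node ih)).subset ?_
    rintro (_ | ⟨l, r⟩) hT
    · exact Or.inl rfl
    · right
      have h1 := l.leaves_pos
      have h2 := r.leaves_pos
      simp only [Set.mem_ofPred_eq, Paren.leaves] at hT
      exact ⟨l, by simp only [Set.mem_ofPred_eq]; omega, r, by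
        simp only [Set.mem_ofPred_eq]; omega, rfl⟩

end

/-- For every `r ≥ 1` there is a single set `A` whose bracketed powers `A^r` take exactly one
value per equivalence class of bracketings. -/
theorem result (r : ℕ) (hr : 1 ≤ r) :
    ∃ (S : Type) (_ : Nonempty S) (_ : Finite S) (d : ℕ) (_ : 1 ≤ d) (A : Set (Fin d → S)),
      ∀ T T' : Paren, T.leaves = r → T'.leaves = r → (val A T = val A T' ↔ Eqv T T') := by
  classical
  let ι := Fin r ⊕ (Tr r × Fin 2)
  let e : ι ≃ Fin (Fintype.card ι) := Fintype.equivFin ι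
  have : Finite {T : Paren // T.leaves = r} :=
    ((finite_leaves_le r).subset (fun T (hT : T.leaves = r) => hT.le)).to_subtype
  refine ⟨Option {T : Paren // T.leaves = r} × Bool, ⟨(none, false)⟩, inferInstance,
    Fintype.card ι, ?_, pull e (bigA r), ?_⟩
  · exact Fintype.card_pos_iff.2 ⟨Sum.inl ⟨0, hr⟩⟩
  · intro T T' hT hT'
    refine ⟨fun heq => ?_, fun h => val_eqv h⟩
    rw [val_pull, val_pull] at heq
    have heq := pull_inj e heq
    have h1 := star_mem (⟨T, hT⟩ : {T : Paren // T.leaves = r})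
    have h2 : pt (⟨T, hT⟩ : {T : Paren // T.leaves = r}) (range r) (fun _ => false) ∈
        val (bigA r) T' := heq ▸ h1
    obtain ⟨U, hU, hE⟩ := (upper ⟨T, hT⟩ T' (range r) _ subset_rfl
      (by rw [card_range]; exact hT'.symm) h2).2 (fun t => rfl)
    rw [restr_full T 0 (range r) (fun i _ h => Finset.mem_range.2 (by omega))] at hU
    rw [← Option.some_injective _ hU] at hE
    exact hE.symm'

end Pool.Agent.Results.MP_2d934b_pr.AllPowersDistinct
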